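import Pool.Agent.Q240.Col.Seq

/-!
Long increasing integer sequences in `[1, x]` whose graph has no three collinear points.
-/

namespace Pool.Agent.Results.MP_6d8139_co.GrowthExponent

/-- there are integers `0 < a 1 < ... < a n ≤ x` such that no three of the points `(j, a j)`,
`1 ≤ j ≤ n`, are collinear -/
def Admissible (x : ℝ) (n : ℕ) : Prop :=
  ∃ a : ℕ → ℤ, (∀ j, 1 ≤ j → j ≤ n → 0 < a j ∧ (a j : ℝ) ≤ x) ∧
    (∀ i j, 1 ≤ i → i < j → j ≤ n → a i < a j) ∧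
    ∀ i j k, 1 ≤ i → i < j → j < k → k ≤ n →
      ¬ Collinear ℝ ({((i : ℝ), (a i : ℝ)), ((j : ℝ), (a j : ℝ)), ((k : ℝ), (a k : ℝ))} :
        Set (ℝ × ℝ))

/-- the largest `n` for which such integers exist -/
noncomputable def N (x : ℝ) : ℕ := sSup {n | Admissible x n}

theorem col {i j l : ℕ} {a : ℕ → ℤ}
    (h : Collinear ℝ ({((i : ℝ), (a i : ℝ)), ((j : ℝ), (a j : ℝ)), ((l : ℝ), (a l : ℝ))} :
        Set (ℝ × ℝ))) : (a l - a j) * ((j : ℤ) - i) = (a j - a i) * ((l : ℤ) - j) := by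
  rw [collinear_iff_of_mem (p₀ := ((i : ℝ), (a i : ℝ))) (by simp)] at h
  obtain ⟨v, hv⟩ := h
  obtain ⟨r1, h1⟩ := hv ((j : ℝ), (a j : ℝ)) (by simp)
  obtain ⟨r2, h2⟩ := hv ((l : ℝ), (a l : ℝ)) (by simp)
  have e1 := congrArg Prod.fst h1
  have e2 := congrArg Prod.snd h1
  have e3 := congrArg Prod.fst h2
  have e4 := congrArg Prod.snd h2
  simp only [vadd_eq_add, Prod.fst_add, Prod.snd_add, Prod.smul_fst, Prod.smul_snd,
    smul_eq_mul] at e1 e2 e3 e4
  have h3 : ((a l : ℝ) - a j) * ((j : ℝ) - i) = ((a j : ℝ) - a i) * ((l : ℝ) - j) := by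
    rw [e1, e2, e3, e4]
    ring
  exact_mod_cast h3

theorem le_of_admissible {x : ℝ} {n : ℕ} (_hx : 0 ≤ x) (h : Admissible x n) : n ≤ ⌊x⌋₊ := by
  obtain ⟨a, h1, h2, _⟩ := h
  rcases Nat.eq_zero_or_pos n with h0 | hn
  · omega
  have key : ∀ j : ℕ, 1 ≤ j → j ≤ n → (j : ℤ) ≤ a j := by
    intro j hj
    induction j, hj using Nat.le_induction with
    | base =>
      intro hn
      have := (h1 1 le_rfl hn).1
      push_cast
      linarith
    | succ j hj ih =>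
      intro hjn
      have h3 := ih (by omega)
      have h4 := h2 j (j + 1) hj (by omega) hjn
      push_cast
      linarith
  apply Nat.le_floor
  have h3 := key n hn le_rfl
  have h4 := (h1 n hn le_rfl).2
  have h5 : ((n : ℤ) : ℝ) ≤ (a n : ℝ) := by exact_mod_cast h3
  have h6 : (n : ℝ) ≤ (a n : ℝ) := by exact_mod_cast h5
  linarith

theorem le_N {x : ℝ} {n : ℕ} (hx : 0 ≤ x) (h : Admissible x n) : n ≤ N x :=
  le_csSup ⟨⌊x⌋₊, fun _ hm => le_of_admissible hx hm⟩ h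

theorem one_le_N {x : ℝ} (hx : 1 ≤ x) : 1 ≤ N x := by
  apply le_N (by linarith)
  refine ⟨fun _ => 1, fun j _ _ => ⟨one_pos, by simpa using hx⟩, fun i j h1 h2 h3 => by omega,
    fun i j k h1 h2 h3 h4 => by omega⟩

theorem power (s : ℕ) : ∃ c : ℝ, 0 < c ∧ ∀ x : ℝ, 1 ≤ x →
    c * x ^ ((4 * (s : ℝ) + 3) / (7 * s + 6)) ≤ N x := by
  obtain ⟨k1, hk1⟩ := Pool.Agent.Q240.Col.exists_seq s
  set k0 := max k1 1 with hk0
  set g : ℝ := (4 * (s : ℝ) + 3) / (7 * s + 6) with hg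
  have hgpos : 0 < g := by positivity
  set X0 : ℝ := 8 * (k0 : ℝ) ^ (7 * s + 6) with hX0
  have hk0pos : 1 ≤ k0 := le_max_right _ _
  have hk0r : (1 : ℝ) ≤ k0 := by exact_mod_cast hk0pos
  have hX0pos : 0 < X0 := by positivity
  refine ⟨min (1 / X0 ^ g) (1 / (8 ^ g * 2 ^ (4 * s + 3))), by positivity, fun x hx => ?_⟩
  have hxpos : 0 < x := by linarith
  rcases lt_or_ge x X0 with hlt | hge
  · have h1 : x ^ g ≤ X0 ^ g := Real.rpow_le_rpow hxpos.le hlt.le hgpos.le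
    calc min (1 / X0 ^ g) (1 / (8 ^ g * 2 ^ (4 * s + 3))) * x ^ g
        ≤ 1 / X0 ^ g * X0 ^ g := by
          apply mul_le_mul (min_le_left _ _) h1 (by positivity) (by positivity)
      _ = 1 := by field_simp
      _ ≤ N x := by exact_mod_cast one_le_N hx
  · set w : ℝ := (x / 8) ^ ((1 : ℝ) / (7 * s + 6)) with hw
    have hx8 : 0 < x / 8 := by positivity
    have hwpos : 0 < w := Real.rpow_pos_of_pos hx8 _
    have h76 : (0 : ℝ) < 7 * s + 6 := by positivity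
    have hwk : (k0 : ℝ) ≤ w := by
      have h1 : ((k0 : ℝ) ^ (7 * s + 6)) ≤ x / 8 := by
        rw [le_div_iff₀ (by norm_num)]
        rw [hX0] at hge
        linarith
      have h2 : ((k0 : ℝ) ^ (7 * s + 6)) ^ ((1 : ℝ) / (7 * s + 6)) ≤ w :=
        Real.rpow_le_rpow (by positivity) h1 (by positivity)
      rw [← Real.rpow_natCast, ← Real.rpow_mul (by positivity)] at h2
      have h3 : (((7 * s + 6 : ℕ) : ℝ)) * (1 / (7 * (s : ℝ) + 6)) = 1 := by
        push_cast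
        field_simp
      rw [h3, Real.rpow_one] at h2
      exact h2
    set k := ⌊w⌋₊ with hk
    have hkk0 : k0 ≤ k := Nat.le_floor hwk
    have hkw : (k : ℝ) ≤ w := Nat.floor_le hwpos.le
    have hwk2 : w / 2 ≤ k := by
      have h1 := Nat.lt_floor_add_one w
      have h2 : (1 : ℝ) ≤ k := by exact_mod_cast hk0pos.trans hkk0
      rw [← hk] at h1
      linarith
    obtain ⟨a, h1, h2, h3⟩ := hk1 k ((le_max_left _ _).trans hkk0)
    have hkx : 8 * (k : ℝ) ^ (7 * s + 6) ≤ x := by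
      have h4 : (k : ℝ) ^ (7 * s + 6) ≤ w ^ (7 * s + 6) := by gcongr
      have h5 : w ^ (7 * s + 6) = x / 8 := by
        rw [hw, ← Real.rpow_natCast, ← Real.rpow_mul hx8.le]
        have h3 : (1 / (7 * (s : ℝ) + 6)) * (((7 * s + 6 : ℕ) : ℝ)) = 1 := by
          push_cast
          field_simp
        rw [h3, Real.rpow_one]
      rw [h5] at h4
      linarith
    have hadm : Admissible x (k ^ (4 * s + 3)) := by
      refine ⟨a, fun j hj hjn => ⟨(h1 j hj hjn).1, ?_⟩, h2, fun i j l hi hij hjl hl hc => ?_⟩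
      · have h4 : ((a j : ℤ) : ℝ) ≤ 8 * (k : ℝ) ^ (7 * s + 6) := by
          exact_mod_cast (h1 j hj hjn).2
        linarith
      · exact h3 i j l hi hij hjl hl (col hc)
    have hN : ((k ^ (4 * s + 3) : ℕ) : ℝ) ≤ N x := by exact_mod_cast le_N hxpos.le hadm
    have hwg : w ^ (4 * s + 3) = (x / 8) ^ g := by
      rw [hw, ← Real.rpow_natCast, ← Real.rpow_mul hx8.le]
      congr 1
      rw [hg]
      push_cast
      field_simp
    calc min (1 / X0 ^ g) (1 / (8 ^ g * 2 ^ (4 * s + 3))) * x ^ g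
        ≤ 1 / (8 ^ g * 2 ^ (4 * s + 3)) * x ^ g := by
          apply mul_le_mul_of_nonneg_right (min_le_right _ _) (by positivity)
      _ = (w / 2) ^ (4 * s + 3) := by
          rw [div_pow, hwg, Real.div_rpow hxpos.le (by norm_num)]
          field_simp
      _ ≤ (k : ℝ) ^ (4 * s + 3) := by gcongr
      _ ≤ N x := by
          rw [← Nat.cast_pow]
          exact hN

/-- **`N x` is at least `c x ^ β` for every `β < 4/7`**; in particular it is not `O(√x)`. -/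
theorem result : (∀ β : ℝ, β < 4 / 7 → ∃ c : ℝ, 0 < c ∧ ∀ x : ℝ, 1 ≤ x → c * x ^ β ≤ N x) ∧
    ¬ ∃ C : ℝ, ∀ x : ℝ, 1 ≤ x → (N x : ℝ) ≤ C * √x := by
  have main : ∀ β : ℝ, β < 4 / 7 → ∃ c : ℝ, 0 < c ∧ ∀ x : ℝ, 1 ≤ x → c * x ^ β ≤ N x := by
    intro β hβ
    have h1 : 0 < 4 - 7 * β := by linarith
    obtain ⟨s, hs⟩ := exists_nat_ge ((6 * β - 3) / (4 - 7 * β))
    rw [div_le_iff₀ h1] at hs
    have h2 : (0 : ℝ) < 7 * s + 6 := by positivity
    have h3 : β ≤ (4 * (s : ℝ) + 3) / (7 * s + 6) := by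
      rw [le_div_iff₀ h2]
      linarith
    obtain ⟨c, hc, h⟩ := power s
    refine ⟨c, hc, fun x hx => le_trans ?_ (h x hx)⟩
    exact mul_le_mul_of_nonneg_left (Real.rpow_le_rpow_of_exponent_le hx h3) hc.le
  refine ⟨main, ?_⟩
  rintro ⟨C, hC⟩
  obtain ⟨c, hc, h⟩ := main (5 / 9) (by norm_num)
  have h1 : ∀ x : ℝ, 1 ≤ x → x ^ ((1 : ℝ) / 18) ≤ C / c := by
    intro x hx
    have hxpos : 0 < x := by linarith
    have h2 := (h x hx).trans (hC x hx)
    rw [Real.sqrt_eq_rpow] at h2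
    have h3 : x ^ ((5 : ℝ) / 9) = x ^ ((1 : ℝ) / 18) * x ^ ((1 : ℝ) / 2) := by
      rw [← Real.rpow_add hxpos]
      norm_num
    rw [h3, ← mul_assoc] at h2
    have h4 := le_of_mul_le_mul_right h2 (Real.rpow_pos_of_pos hxpos _)
    rw [le_div_iff₀ hc]
    linarith
  have h2 := tendsto_rpow_atTop (y := (1 : ℝ) / 18) (by norm_num)
  obtain ⟨x, hx1, hx2⟩ := ((h2.eventually_gt_atTop (C / c)).and
    (Filter.eventually_ge_atTop 1)).exists
  exact absurd (h1 x hx2) (not_le.mpr hx1)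

end Pool.Agent.Results.MP_6d8139_co.GrowthExponent
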